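import Pool.Agent.Lib.MP_176643_co.Sharp

namespace Pool.Agent.Lib.MP_176643_co.Old.DoubleExpSharp

open Filter Finset Pool.Agent.Lib.MP_176643_co

theorem sq_lt_pow (l : ℕ) (hl : 45 ≤ l) : 10 ^ 9 * (l + 1) ^ 2 < 2 ^ l := by
  induction l, hl using Nat.le_induction with
  | base => norm_num
  | succ l hl ih =>
    rw [pow_succ 2]
    nlinarith

theorem result : ∀ᶠ u : ℕ in atTop, ∀ t n : ℕ, 10 ^ 7 * u ^ 4 * Nat.log 2 u ^ 2 ≤ t →
    n ≤ 2 ^ 2 ^ u → ∃ col : (Fin n → Fin t) → Fin 2,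
      (∀ (σ : Equiv.Perm (Fin n)) (w : Fin n → Fin t), col (w ∘ σ) = col w) ∧
      ∀ l : Combinatorics.Line (Fin t) (Fin n), ¬ l.IsMono col := by
  refine eventually_atTop.2 ⟨2 ^ 45, fun u hu t n ht hn => ?_⟩
  have h0 := Nat.le_log_of_pow_le one_lt_two hu
  have h1 := (sq_lt_pow _ h0).trans_le (Nat.pow_log_le_self 2 (x := u) (by omega))
  have h3 := Nat.lt_pow_succ_log_self one_lt_two u
  generalize Nat.log 2 u = l at *
  have h4 : u ^ 6 ≤ 2 ^ ((l + 1) * 6) := by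
    rw [pow_mul]
    exact Nat.pow_le_pow_left h3.le _
  obtain ⟨s, hs⟩ : ∃ s, 6 * (3 * (u + 3)) = s + 1 := ⟨18 * u + 53, by ring⟩
  have h7 : s + 1 ≤ 19 * u := by omega
  have h8 : 19 * u ≤ 2 ^ u := by
    have := (sq_lt_pow u (by omega)).le
    nlinarith
  obtain ⟨φ, hφ⟩ : ∃ φ : (Fin n → Fin (s + 1)) → Fin (2 ^ (3 * u + 2)) × (Fin (s + 1) →
      ZMod ((s + 1) * (2 ^ (u + 1)) ^ 5 * (s + 1) ^ (s + 1) + (s + 1))), Free φ := by
    have := many' (e := 3 * (u + 3)) (M := 2 ^ (u + 1)) (K := 2 ^ (3 * u + 2)) (n := n) (by omega)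
      ?_ ?_ ?_
    · rwa [hs] at this
    · rw [show ((3 * (u + 3) : ℕ) : ℝ) / 3 = (u + 3 : ℕ) * 1 by push_cast; ring, Real.exp_nat_mul]
      refine le_trans (by push_cast; ring_nf; rfl) (pow_le_pow_left₀ zero_le_two ?_ _)
      linarith [Real.add_one_le_exp 1]
    · rw [hs, Fintype.card_fun, Fintype.card_pi, Fintype.card_fin]
      refine (Nat.pow_le_pow_left (prod_le_pow_card _ _ (2 ^ (u + 1)) fun q _ => ?_) _).trans_lt ?_
      · rw [ZMod.card]
        exact q.2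
      · rw [card_univ, Fintype.card_fin, ← pow_mul, ← pow_mul]
        refine Nat.pow_lt_pow_right one_lt_two ?_
        calc (u + 1) * (2 ^ (u + 1) * (s + 1)) ≤ 2 ^ u * (2 ^ (u + 1) * 2 ^ u) := by gcongr <;> omega
          _ < 2 ^ (3 * u + 2) := by
            rw [← pow_add, ← pow_add]
            exact Nat.pow_lt_pow_right one_lt_two (by omega)
    · refine hn.trans_lt (lt_of_not_ge fun h => ?_)
      have h9 := (Chebyshev.two_pow_le_mul_lcmUpto (2 ^ (u + 1))).trans (Nat.mul_le_mul_left _ h)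
      rw [pow_succ, pow_mul, sq] at h9
      have h10 := Nat.le_of_mul_le_mul_right h9 (by positivity)
      have h11 := (sq_lt_pow (2 ^ u) (by omega)).le
      nlinarith
  have : NeZero ((s + 1) * (2 ^ (u + 1)) ^ 5 * (s + 1) ^ (s + 1) + (s + 1)) := ⟨by positivity⟩
  have h9 : Fintype.card (Fin (2 ^ (3 * u + 2)) × (Fin (s + 1) →
      ZMod ((s + 1) * (2 ^ (u + 1)) ^ 5 * (s + 1) ^ (s + 1) + (s + 1)))) ≤ 2 ^ (420 * u ^ 2 * l) := by
    rw [Fintype.card_prod, Fintype.card_fun, Fintype.card_fin, Fintype.card_fin, ZMod.card]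
    have h10 : s + 1 ≤ 2 ^ (l + 6) := by
      rw [pow_add]
      rw [Nat.succ_eq_add_one, pow_succ] at h3
      omega
    have h11 : (s + 1) * (2 ^ (u + 1)) ^ 5 * (s + 1) ^ (s + 1) + (s + 1) ≤
        2 ^ (l + 6 + (u + 1) * 5 + (l + 6) * (s + 1) + 1) := by
      rw [pow_succ 2 (_ + _), pow_add 2 (_ + _), pow_add 2 (l + 6), pow_mul, pow_mul, mul_two]
      refine add_le_add (by gcongr) (h10.trans ?_)
      rw [mul_assoc]
      exact Nat.le_mul_of_pos_right _ (by positivity)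
    refine (Nat.mul_le_mul_left _ (Nat.pow_le_pow_left h11 _)).trans ?_
    rw [← pow_mul, ← pow_add]
    refine Nat.pow_le_pow_right two_pos ?_
    have h12 : l ≤ u := by nlinarith
    calc 3 * u + 2 + (l + 6 + (u + 1) * 5 + (l + 6) * (s + 1) + 1) * (s + 1)
        ≤ 3 * u + 2 + (u + 6 + (u + 1) * 5 + (l + 6) * (19 * u) + 1) * (19 * u) := by gcongr
      _ ≤ 420 * u ^ 2 * l := by
        nlinarith [Nat.mul_le_mul_left (u ^ 2) h0, Nat.mul_le_mul_right u hu]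
  have h5 : 0 < u ^ 4 * l ^ 2 := by positivity
  have h10 : 420 * u ^ 2 * l * (s + 1) * ((s + 1) * ((l + 1) * 6)) + 2 ≤ 10 ^ 6 * (u ^ 4 * l ^ 2) := by
    calc _ ≤ 420 * u ^ 2 * l * (19 * u) * (19 * u * ((l + 1) * 6)) + 2 := by gcongr
      _ ≤ _ := by nlinarith [Nat.mul_le_mul_left (u ^ 4 * l) h0]
  refine reduce' (M := (s + 1) * ((l + 1) * 6))
    (H := 420 * u ^ 2 * l * (s + 1) * ((s + 1) * ((l + 1) * 6)) + 2) hφ ?_ ?_ ?_
  · have h11 : 2 * s ^ (s + 1) ≤ (s + 1) ^ (s + 1) := by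
      have := pow_add_mul_le_add_pow (a := s) (b := 1) (by omega) (by omega) (s + 1)
      simp only [Nat.cast_id, add_tsub_cancel_right, mul_one] at this
      rw [pow_succ] at this ⊢
      nlinarith [Nat.zero_le (s ^ s)]
    rw [pow_mul s, pow_mul (s + 1), ← mul_assoc]
    refine le_trans ?_ (Nat.pow_le_pow_left h11 _)
    rw [mul_pow]
    refine Nat.mul_le_mul_right _ (((Nat.mul_le_mul_left _ h10).trans ?_).trans h4)
    have h12 : 4 * 10 ^ 6 * l ^ 2 ≤ u ^ 2 := by nlinarith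
    nlinarith [Nat.mul_le_mul_left (u ^ 4) h12]
  · refine (Nat.mul_le_mul_left _ (Nat.pow_le_pow_left (Nat.pow_le_pow_left h9 _) _)).trans_lt ?_
    rw [← pow_mul, ← pow_mul, ← pow_succ', ← mul_assoc]
    exact Nat.pow_lt_pow_right one_lt_two (by omega)
  · refine lt_of_lt_of_le ?_ ht
    have h11 := Nat.mul_le_mul_right ((s + 1) * ((s + 1) * ((l + 1) * 6)))
      (show 1 ≤ 420 * u ^ 2 * l from Nat.succ_le_of_lt (by positivity))
    nlinarith

end Pool.Agent.Lib.MP_176643_co.Old.DoubleExpSharp
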